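import Pool.Agent.V11223.MC.Time

/-!
# Deterministic constant-ratio approximation of multi-criteria Max-ATSP

Guess the values of an optimal tour in all criteria up to a factor of two and the blocks into which
the tour falls when its light edges are removed (there are `O(k²)` heavy edges). On the blocks, a
local search that inserts a light edge and removes the edges touching it, minimising the potential
`∑ max(0, β - 4 y)²`, finds pairwise disjoint light edges which together with the blocks reach an
eighth of the target in every criterion. The blocks and these edges are completed to a tour.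
-/

namespace Pool.Agent.Results.MP_addf94_lc.ConstantRatio

open Pool.Agent.NPC Pool.Agent.V11223.MC

/-- For every `k ≥ 1` there is an algorithm, computed by a Turing machine in polynomial time, that
for every instance with `n ≥ 2` vertices and `k` nonnegative rational weight functions outputs a
list of tours which is a `1 / 16`-approximate Pareto curve. -/
theorem result (k : ℕ) (hk : 1 ≤ k) : ∃ f : List (List (List ℚ)) → List (List ℕ),
    Nonempty (Turing.TM2ComputableInPolyTime (bits : List (List (List ℚ)) → List Bool)
      (bits : List (List ℕ) → List Bool) f) ∧
    ∀ (n : ℕ), 2 ≤ n → ∀ w : ℕ → ℕ → ℕ → ℚ, (∀ i u v, 0 ≤ w i u v) →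
      (∀ C ∈ f (inst k n w), C.Perm (List.range n)) ∧
      ∀ H : List ℕ, H.Perm (List.range n) →
        ∃ C ∈ f (inst k n w), ∀ i < k, (1 / 16) * wt (w i) H ≤ wt (w i) C := by
  refine ⟨algoQ k, H532.Poly.toTM (V11223MC.algoQ_poly k), ?_⟩
  intro n hn w h0
  refine ⟨fun C hC => algoQ_tour hk w hC, fun H hH => ?_⟩
  obtain ⟨C, hC, h⟩ := algoQ_good hk hn w h0 hH
  refine ⟨C, hC, fun i hi => ?_⟩
  have := h i hi
  linarith

end Pool.Agent.Results.MP_addf94_lc.ConstantRatio
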